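import Pool.Agent.X178.Del.Local

/-! The discriminant curve: irreducibility, singular points, cusps. -/

set_option autoImplicit false

open Set Filter Topology Metric

noncomputable section

namespace Pool.Agent.X178.Del

open MvPolynomial

/-- the polynomial -/
def f : MvPolynomial (Fin 2) ℂ :=
  X 0 ^ 2 * X 1 ^ 2 - 4 * X 0 ^ 3 - 4 * X 1 ^ 3 + 18 * X 0 * X 1 - 27

lemma eval_f (q : Fin 2 → ℂ) : eval q f = F (q 0) (q 1) := by
  simp [f, F]

lemma eval_f0 (q : Fin 2 → ℂ) :
    eval q (pderiv 0 f) = 2 * q 0 * q 1 ^ 2 - 12 * q 0 ^ 2 + 18 * q 1 := by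
  have h4 : pderiv (0 : Fin 2) (4 : MvPolynomial (Fin 2) ℂ) = 0 := by
    have : (4 : MvPolynomial (Fin 2) ℂ) = C 4 := (map_ofNat C 4).symm
    rw [this, pderiv_C]
  have h18 : pderiv (0 : Fin 2) (18 : MvPolynomial (Fin 2) ℂ) = 0 := by
    have : (18 : MvPolynomial (Fin 2) ℂ) = C 18 := (map_ofNat C 18).symm
    rw [this, pderiv_C]
  have h27 : pderiv (0 : Fin 2) (27 : MvPolynomial (Fin 2) ℂ) = 0 := by
    have : (27 : MvPolynomial (Fin 2) ℂ) = C 27 := (map_ofNat C 27).symm
    rw [this, pderiv_C]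
  have h01 : pderiv (0 : Fin 2) (X 1 : MvPolynomial (Fin 2) ℂ) = 0 := pderiv_X_of_ne (by decide)
  have h00 : pderiv (0 : Fin 2) (X 0 : MvPolynomial (Fin 2) ℂ) = 1 := pderiv_X_self 0
  unfold f
  simp only [map_sub, map_add, Derivation.leibniz, Derivation.leibniz_pow, h4, h18, h27, h01, h00,
    smul_eq_mul, nsmul_eq_mul, map_mul, map_pow, eval_X, map_natCast, map_zero, map_one]
  simp
  ring

lemma eval_f1 (q : Fin 2 → ℂ) :
    eval q (pderiv 1 f) = 2 * q 0 ^ 2 * q 1 - 12 * q 1 ^ 2 + 18 * q 0 := by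
  have h4 : pderiv (1 : Fin 2) (4 : MvPolynomial (Fin 2) ℂ) = 0 := by
    have : (4 : MvPolynomial (Fin 2) ℂ) = C 4 := (map_ofNat C 4).symm
    rw [this, pderiv_C]
  have h18 : pderiv (1 : Fin 2) (18 : MvPolynomial (Fin 2) ℂ) = 0 := by
    have : (18 : MvPolynomial (Fin 2) ℂ) = C 18 := (map_ofNat C 18).symm
    rw [this, pderiv_C]
  have h27 : pderiv (1 : Fin 2) (27 : MvPolynomial (Fin 2) ℂ) = 0 := by
    have : (27 : MvPolynomial (Fin 2) ℂ) = C 27 := (map_ofNat C 27).symm
    rw [this, pderiv_C]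
  have h01 : pderiv (1 : Fin 2) (X 0 : MvPolynomial (Fin 2) ℂ) = 0 := pderiv_X_of_ne (by decide)
  have h00 : pderiv (1 : Fin 2) (X 1 : MvPolynomial (Fin 2) ℂ) = 1 := pderiv_X_self 1
  unfold f
  simp only [map_sub, map_add, Derivation.leibniz, Derivation.leibniz_pow, h4, h18, h27, h01, h00,
    smul_eq_mul, nsmul_eq_mul, map_mul, map_pow, eval_X, map_natCast, map_zero, map_one]
  simp
  ring

/-- no polynomial root -/
lemma no_root (P : Polynomial ℂ)
    (h : P ^ 2 * (Polynomial.X ^ 2 - 4 * P) + 18 * Polynomial.X * P - 4 * Polynomial.X ^ 3 - 27 = 0) :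
    False := by
  have hR : (4 * Polynomial.X ^ 3 + 27 : Polynomial ℂ).natDegree = 3 := by compute_degree!
  have hR0 : (4 * Polynomial.X ^ 3 + 27 : Polynomial ℂ) ≠ 0 := by
    intro h0; rw [h0] at hR; simp at hR
  by_cases hP : P = 0
  · rw [hP] at h
    apply hR0
    linear_combination -h
  have hXP : (18 * Polynomial.X * P : Polynomial ℂ).natDegree = P.natDegree + 1 := by
    have : (18 * Polynomial.X * P : Polynomial ℂ) = Polynomial.C 18 * (Polynomial.X * P) := by
      rw [← mul_assoc]; rfl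
    rw [this, Polynomial.natDegree_C_mul (by norm_num), Polynomial.natDegree_X_mul hP]
  set Q := (Polynomial.X ^ 2 - 4 * P : Polynomial ℂ) with hQ
  have e : P ^ 2 * Q = (4 * Polynomial.X ^ 3 + 27) - 18 * Polynomial.X * P := by
    linear_combination h
  have hle : (P ^ 2 * Q).natDegree ≤ max 3 (P.natDegree + 1) := by
    rw [e]
    refine (Polynomial.natDegree_sub_le _ _).trans ?_
    rw [hR, hXP]
  by_cases hQ0 : Q = 0
  · rw [hQ0, mul_zero] at e
    have e2 : (4 : Polynomial ℂ) * P = Polynomial.X ^ 2 := by linear_combination -hQ0 + hQ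
    have e3 : (18 * Polynomial.X ^ 3 : Polynomial ℂ) = 4 * (4 * Polynomial.X ^ 3 + 27) := by
      linear_combination 4 * e - 18 * Polynomial.X * e2
    have := congrArg (Polynomial.eval 0) e3
    norm_num at this
  · rw [Polynomial.natDegree_mul (pow_ne_zero 2 hP) hQ0, Polynomial.natDegree_pow] at hle
    rcases le_or_gt 2 P.natDegree with h2 | h2
    · rcases le_total 3 (P.natDegree + 1) with h3 | h3
      · rw [max_eq_right h3] at hle; omega
      · omega
    · -- natDegree Q = 2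
      have hQd : Q.natDegree = 2 := by
        have h4P : (4 * P : Polynomial ℂ).natDegree ≤ P.natDegree := by
          have : (4 * P : Polynomial ℂ) = Polynomial.C 4 * P := rfl
          rw [this]
          exact Polynomial.natDegree_C_mul_le _ _
        rw [hQ, Polynomial.natDegree_sub_eq_left_of_natDegree_lt]
        · exact Polynomial.natDegree_X_pow 2
        · rw [Polynomial.natDegree_X_pow]; omega
      rw [hQd] at hle
      rcases Nat.eq_zero_or_pos P.natDegree with h0 | h0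
      · -- constant
        have h5 : ((4 * Polynomial.X ^ 3 + 27) - 18 * Polynomial.X * P : Polynomial ℂ).natDegree
            = 3 := by
          rw [Polynomial.natDegree_sub_eq_left_of_natDegree_lt]
          · exact hR
          · rw [hXP, hR]; omega
        rw [← e, Polynomial.natDegree_mul (pow_ne_zero 2 hP) hQ0, Polynomial.natDegree_pow, hQd,
          h0] at h5
        omega
      · have h1 : P.natDegree = 1 := by omega
        rw [h1] at hle
        norm_num at hle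

/-- the monic cubic over the coordinate ring -/
def pc : Polynomial (MvPolynomial (Fin 1) ℂ) :=
  Polynomial.X ^ 3 + Polynomial.C (-(C (1 / 4) * X 0 ^ 2)) * Polynomial.X ^ 2 +
    Polynomial.C (-(C (9 / 2) * X 0)) * Polynomial.X +
    Polynomial.C (X 0 ^ 3 + C (27 / 4))

lemma pc_natDegree : pc.natDegree = 3 := by
  unfold pc
  compute_degree!

lemma pc_monic : pc.Monic := by
  unfold pc
  monicity!

lemma pc_irreducible : Irreducible pc := by
  rw [pc_monic.irreducible_iff_roots_eq_zero_of_degree_le_three (by rw [pc_natDegree]; norm_num)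
    (by rw [pc_natDegree])]
  apply Multiset.eq_zero_of_forall_notMem
  intro r hr
  have h1 : pc.eval r = 0 := (Polynomial.mem_roots'.mp hr).2
  unfold pc at h1
  simp only [Polynomial.eval_add, Polynomial.eval_mul, Polynomial.eval_pow, Polynomial.eval_X,
    Polynomial.eval_C] at h1
  have h2 := congrArg (MvPolynomial.aeval (fun _ : Fin 1 => (Polynomial.X : Polynomial ℂ))) h1
  simp only [map_add, map_mul, map_neg, map_pow, MvPolynomial.aeval_X, map_zero,
    MvPolynomial.aeval_C, Polynomial.algebraMap_eq] at h2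
  set P := MvPolynomial.aeval (fun _ : Fin 1 => (Polynomial.X : Polynomial ℂ)) r with hP
  apply no_root P
  have c1 : (4 : Polynomial ℂ) * Polynomial.C (1 / 4) = 1 := by
    have : (4 : Polynomial ℂ) = Polynomial.C 4 := rfl
    rw [this, ← Polynomial.C_mul]; norm_num
  have c2 : (4 : Polynomial ℂ) * Polynomial.C (9 / 2) = 18 := by
    have : (4 : Polynomial ℂ) = Polynomial.C 4 := rfl
    have h18 : (18 : Polynomial ℂ) = Polynomial.C 18 := rfl
    rw [this, h18, ← Polynomial.C_mul]; norm_num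
  have c3 : (4 : Polynomial ℂ) * Polynomial.C (27 / 4) = 27 := by
    have : (4 : Polynomial ℂ) = Polynomial.C 4 := rfl
    have h27 : (27 : Polynomial ℂ) = Polynomial.C 27 := rfl
    rw [this, h27, ← Polynomial.C_mul]; norm_num
  linear_combination (-4) * h2 - Polynomial.X ^ 2 * P ^ 2 * c1 - Polynomial.X * P * c2 + c3

lemma irreducible_f : Irreducible f := by
  rw [← MulEquiv.irreducible_iff (MvPolynomial.finSuccEquiv ℂ 1)]
  have h : MvPolynomial.finSuccEquiv ℂ 1 f = Polynomial.C (C (-4)) * pc := by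
    have h1 : MvPolynomial.finSuccEquiv ℂ 1 (X 1) = Polynomial.C (X 0) :=
      MvPolynomial.finSuccEquiv_X_succ (j := 0)
    have c1 : (C (-4) : MvPolynomial (Fin 1) ℂ) * C (1 / 4) = -1 := by
      rw [← C_mul, show (-4 * (1 / 4) : ℂ) = -1 by norm_num, map_neg, map_one]
    have c2 : (C (-4) : MvPolynomial (Fin 1) ℂ) * C (9 / 2) = -18 := by
      rw [← C_mul, show (-4 * (9 / 2) : ℂ) = -18 by norm_num, map_neg, map_ofNat]
    have c3 : (C (-4) : MvPolynomial (Fin 1) ℂ) * C (27 / 4) = -27 := by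
      rw [← C_mul, show (-4 * (27 / 4) : ℂ) = -27 by norm_num, map_neg, map_ofNat]
    have c4 : (C (-4) : MvPolynomial (Fin 1) ℂ) = -4 := by
      rw [map_neg, map_ofNat]
    have d1 : (Polynomial.C (C (-4)) : Polynomial (MvPolynomial (Fin 1) ℂ)) *
        Polynomial.C (C (1 / 4)) = -1 := by
      rw [← Polynomial.C_mul, c1, map_neg, map_one]
    have d2 : (Polynomial.C (C (-4)) : Polynomial (MvPolynomial (Fin 1) ℂ)) *
        Polynomial.C (C (9 / 2)) = -18 := by
      rw [← Polynomial.C_mul, c2, map_neg, map_ofNat]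
    have d3 : (Polynomial.C (C (-4)) : Polynomial (MvPolynomial (Fin 1) ℂ)) *
        Polynomial.C (C (27 / 4)) = -27 := by
      rw [← Polynomial.C_mul, c3, map_neg, map_ofNat]
    have d4 : (Polynomial.C (C (-4)) : Polynomial (MvPolynomial (Fin 1) ℂ)) = -4 := by
      rw [c4, map_neg, map_ofNat]
    unfold f pc
    simp only [map_sub, map_add, map_mul, map_pow, MvPolynomial.finSuccEquiv_X_zero, h1, map_ofNat,
      map_neg]
    rw [d4] at d1 d2 d3
    linear_combination (Polynomial.C (X 0)) ^ 2 * Polynomial.X ^ 2 * d1 +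
      Polynomial.C (X 0) * Polynomial.X * d2 - d3
  rw [h]
  have hu : IsUnit (Polynomial.C (C (-4)) : Polynomial (MvPolynomial (Fin 1) ℂ)) := by
    rw [Polynomial.isUnit_C]
    exact (IsUnit.mk0 (-4 : ℂ) (by norm_num)).map C
  rw [irreducible_isUnit_mul hu]
  exact pc_irreducible

/-- the cusps -/
def cu (ζ : ℂ) : Fin 2 → ℂ := ![3 * ζ, 3 * ζ ^ 2]

lemma F_rot {ζ : ℂ} (hζ : ζ ^ 3 = 1) (x y : ℂ) : F (ζ * x) (ζ ^ 2 * y) = F x y := by
  unfold F
  have h6 : ζ ^ 6 = 1 := by
    calc ζ ^ 6 = (ζ ^ 3) ^ 2 := by ring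
      _ = 1 := by rw [hζ]; ring
  linear_combination (x ^ 2 * y ^ 2 - 4 * y ^ 3) * h6 + (-4 * x ^ 3 + 18 * x * y) * hζ

/-- small punctured neighbourhoods of the cusps are connected -/
lemma local_conn {ζ : ℂ} (hζ : ζ ^ 3 = 1) {δ : ℝ} (hδ : 0 < δ) (hδ1 : δ < 1 / 1000) :
    IsPreconnected {q : Fin 2 → ℂ | eval q f = 0 ∧ q ≠ cu ζ ∧
      ‖q 0 - (cu ζ) 0‖ ^ 2 + ‖q 1 - (cu ζ) 1‖ ^ 2 < δ ^ 2} := by
  have hζ0 : ζ ≠ 0 := by rintro rfl; norm_num at hζ
  have hn : ‖ζ‖ = 1 := by
    have : ‖ζ‖ ^ 3 = 1 := by rw [← norm_pow, hζ, norm_one]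
    exact (pow_eq_one_iff_of_nonneg (norm_nonneg _) (by norm_num)).mp this
  have himg : {q : Fin 2 → ℂ | eval q f = 0 ∧ q ≠ cu ζ ∧
      ‖q 0 - (cu ζ) 0‖ ^ 2 + ‖q 1 - (cu ζ) 1‖ ^ 2 < δ ^ 2} =
      (fun z => (![ζ * u z, ζ ^ 2 * v z] : Fin 2 → ℂ)) '' W δ := by
    have hdist : ∀ x y : ℂ, ‖ζ * x - 3 * ζ‖ ^ 2 + ‖ζ ^ 2 * y - 3 * ζ ^ 2‖ ^ 2 =
        ‖x - 3‖ ^ 2 + ‖y - 3‖ ^ 2 := by
      intro x y
      have e1 : ζ * x - 3 * ζ = ζ * (x - 3) := by ring
      have e2 : ζ ^ 2 * y - 3 * ζ ^ 2 = ζ ^ 2 * (y - 3) := by ring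
      rw [e1, e2, norm_mul, norm_mul, norm_pow, hn]
      ring
    ext q
    constructor
    · rintro ⟨h1, h2, h3⟩
      rw [eval_f] at h1
      have h4 : F (ζ ^ 2 * q 0) (ζ * q 1) = 0 := by
        have := F_rot hζ (ζ ^ 2 * q 0) (ζ * q 1)
        have e1 : ζ * (ζ ^ 2 * q 0) = q 0 := by linear_combination q 0 * hζ
        have e2 : ζ ^ 2 * (ζ * q 1) = q 1 := by linear_combination q 1 * hζ
        rw [e1, e2, h1] at this
        exact this.symm
      obtain ⟨z, hz, hu, hv⟩ := surj h4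
      have e1 : ζ * u z = q 0 := by rw [hu]; linear_combination q 0 * hζ
      have e2 : ζ ^ 2 * v z = q 1 := by rw [hv]; linear_combination q 1 * hζ
      have hq : (![ζ * u z, ζ ^ 2 * v z] : Fin 2 → ℂ) = q := by
        ext i
        fin_cases i
        · exact e1
        · exact e2
      refine ⟨z, ⟨hz, ?_, ?_⟩, hq⟩
      · rintro rfl
        apply h2
        rw [← hq]
        ext i
        fin_cases i
        · change ζ * u 1 = 3 * ζ
          unfold u; rw [inv_one]; ring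
        · change ζ ^ 2 * v 1 = 3 * ζ ^ 2
          unfold v; rw [inv_one]; ring
      · unfold G
        rw [← hdist, e1, e2]
        exact h3
    · rintro ⟨z, ⟨hz, hz1, hzG⟩, rfl⟩
      refine ⟨?_, ?_, ?_⟩
      · rw [eval_f]
        change F (ζ * u z) (ζ ^ 2 * v z) = 0
        rw [F_rot hζ, F_uv hz]
      · intro h
        have h1 : ζ * u z = 3 * ζ := congrFun h 0
        have h2 : ζ ^ 2 * v z = 3 * ζ ^ 2 := congrFun h 1
        have h3 : u z = 3 := mul_left_cancel₀ hζ0 (by rw [h1]; ring)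
        have h4 : v z = 3 := mul_left_cancel₀ (pow_ne_zero 2 hζ0) (by rw [h2]; ring)
        apply hz1
        apply inj hz one_ne_zero
        · rw [h3]; unfold u; rw [inv_one]; ring
        · rw [h4]; unfold v; rw [inv_one]; ring
      · change ‖ζ * u z - 3 * ζ‖ ^ 2 + ‖ζ ^ 2 * v z - 3 * ζ ^ 2‖ ^ 2 < δ ^ 2
        rw [hdist]
        exact hzG
  rw [himg]
  apply (isPreconnected_W hδ hδ1).image
  have hinv : ContinuousOn (fun z : ℂ => z⁻¹) (W δ) := continuousOn_id.inv₀ (fun z hz => hz.1)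
  apply continuousOn_pi.mpr
  intro i
  fin_cases i
  · change ContinuousOn (fun z : ℂ => ζ * (2 * z + (z⁻¹) ^ 2)) _
    fun_prop
  · change ContinuousOn (fun z : ℂ => ζ ^ 2 * (z ^ 2 + 2 * z⁻¹)) _
    fun_prop

/-- the set of singular points with one branch -/
lemma sing_eq : {p : Fin 2 → ℂ | eval p f = 0 ∧ (∀ i : Fin 2, eval p (pderiv i f) = 0) ∧
      ∃ ε : ℝ, 0 < ε ∧ ∀ δ : ℝ, 0 < δ → δ < ε →
          IsPreconnected {q : Fin 2 → ℂ | eval q f = 0 ∧ q ≠ p ∧
            ‖q 0 - p 0‖ ^ 2 + ‖q 1 - p 1‖ ^ 2 < δ ^ 2}} = cu '' {ζ : ℂ | ζ ^ 3 = 1} := by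
  ext p
  constructor
  · rintro ⟨h1, h2, -⟩
    have h3 := h2 0
    have h4 := h2 1
    rw [eval_f] at h1
    rw [eval_f0] at h3
    rw [eval_f1] at h4
    unfold F at h1
    set x := p 0 with hx
    set y := p 1 with hy
    have a1 : (x * y - 9) ^ 2 = 0 := by
      linear_combination (-3) * h1 + x * h3 + y * h4
    have a2 : x * y = 9 := by
      have := pow_eq_zero_iff (two_ne_zero) |>.mp a1
      linear_combination this
    have a3 : x ^ 3 = 27 := by
      linear_combination (-1 / 12) * x * h3 + (x * y / 6 + 3 / 2 + 3 / 2) * a2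
    refine ⟨x / 3, ?_, ?_⟩
    · change (x / 3) ^ 3 = 1
      rw [div_pow, a3]; norm_num
    · have hx0 : x ≠ 0 := by
        rintro h0; rw [h0] at a3; norm_num at a3
      ext i
      fin_cases i
      · change 3 * (x / 3) = p 0
        rw [← hx]; ring
      · change 3 * (x / 3) ^ 2 = p 1
        rw [← hy]
        apply mul_left_cancel₀ hx0
        rw [a2]
        linear_combination a3 / 3
  · rintro ⟨ζ, hζ, rfl⟩
    have hζ : ζ ^ 3 = 1 := hζ
    refine ⟨?_, ?_, 1 / 1000, by norm_num, fun δ hδ hδ1 => local_conn hζ hδ hδ1⟩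
    · rw [eval_f]
      change F (3 * ζ) (3 * ζ ^ 2) = 0
      unfold F
      linear_combination (81 * ζ ^ 3 - 27 * 4 * ζ ^ 3 + 27) * hζ
    · intro i
      fin_cases i
      · change eval (cu ζ) (pderiv 0 f) = 0
        rw [eval_f0]
        change 2 * (3 * ζ) * (3 * ζ ^ 2) ^ 2 - 12 * (3 * ζ) ^ 2 + 18 * (3 * ζ ^ 2) = 0
        linear_combination (54 * ζ ^ 2) * hζ
      · change eval (cu ζ) (pderiv 1 f) = 0
        rw [eval_f1]
        change 2 * (3 * ζ) ^ 2 * (3 * ζ ^ 2) - 12 * (3 * ζ ^ 2) ^ 2 + 18 * (3 * ζ) = 0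
        linear_combination (-54 * ζ) * hζ

lemma ncard_cusps : (cu '' {ζ : ℂ | ζ ^ 3 = 1}).ncard = 3 := by
  have hinj : Function.Injective cu := by
    intro a b h
    have h1 : 3 * a = 3 * b := congrFun h 0
    exact mul_left_cancel₀ (by norm_num) h1
  rw [Set.ncard_image_of_injective _ hinj]
  have h1 : {ζ : ℂ | ζ ^ 3 = 1} = ↑(Polynomial.nthRootsFinset 3 (1 : ℂ)) := by
    ext ζ
    rw [Finset.mem_coe, Polynomial.mem_nthRootsFinset (by norm_num)]
    rfl
  rw [h1, Set.ncard_coe_finset]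
  exact (Complex.isPrimitiveRoot_exp 3 (by norm_num)).card_nthRootsFinset

end Pool.Agent.X178.Del
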