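import Mathlib
import Pool.Agent.H823R3.Pi1Cyclic

/-! The discriminant curve `x²y² - 4x³ - 4y³ + 18xy - 27 = 0` is homeomorphic to `ℂ*`. -/

set_option autoImplicit false

open Set Filter Topology Metric

noncomputable section

namespace Pool.Agent.X178.Del

/-- the polynomial as a function -/
def F (x y : ℂ) : ℂ := x ^ 2 * y ^ 2 - 4 * x ^ 3 - 4 * y ^ 3 + 18 * x * y - 27

/-- first coordinate of the parametrisation -/
def u (z : ℂ) : ℂ := 2 * z + (z⁻¹) ^ 2
/-- second coordinate of the parametrisation -/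
def v (z : ℂ) : ℂ := z ^ 2 + 2 * z⁻¹

lemma F_uv {z : ℂ} (hz : z ≠ 0) : F (u z) (v z) = 0 := by
  unfold F u v
  field_simp
  ring

/-- every point is in the image -/
lemma surj {x y : ℂ} (h : F x y = 0) : ∃ z : ℂ, z ≠ 0 ∧ u z = x ∧ v z = y := by
  -- the cubic `t³ - x t² + y t - 1` has a root
  obtain ⟨a, ha⟩ : ∃ a : ℂ, a ^ 3 - x * a ^ 2 + y * a - 1 = 0 := by
    have hd : (Polynomial.X ^ 3 - Polynomial.C x * Polynomial.X ^ 2 + Polynomial.C y *
        Polynomial.X - 1 : Polynomial ℂ).degree = 3 := by compute_degree!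
    obtain ⟨a, ha⟩ := IsAlgClosed.exists_root (Polynomial.X ^ 3 - Polynomial.C x *
      Polynomial.X ^ 2 + Polynomial.C y * Polynomial.X - 1 : Polynomial ℂ) (by rw [hd]; norm_num)
    refine ⟨a, ?_⟩
    have := ha
    simp only [Polynomial.IsRoot.def, Polynomial.eval_sub, Polynomial.eval_add,
      Polynomial.eval_mul, Polynomial.eval_pow, Polynomial.eval_X, Polynomial.eval_C,
      Polynomial.eval_one] at this
    exact this
  obtain ⟨b, hb⟩ : ∃ b : ℂ, b ^ 2 + (a - x) * b + (a ^ 2 - x * a + y) = 0 := by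
    have hd : (Polynomial.X ^ 2 + Polynomial.C (a - x) * Polynomial.X +
        Polynomial.C (a ^ 2 - x * a + y) : Polynomial ℂ).degree = 2 := by compute_degree!
    obtain ⟨b, hb⟩ := IsAlgClosed.exists_root (Polynomial.X ^ 2 + Polynomial.C (a - x) *
        Polynomial.X + Polynomial.C (a ^ 2 - x * a + y) : Polynomial ℂ) (by rw [hd]; norm_num)
    refine ⟨b, ?_⟩
    have := hb
    simp only [Polynomial.IsRoot.def, Polynomial.eval_add,
      Polynomial.eval_mul, Polynomial.eval_pow, Polynomial.eval_X, Polynomial.eval_C] at this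
    exact this
  obtain ⟨c, hc⟩ : ∃ c : ℂ, c = x - a - b := ⟨_, rfl⟩
  have hx : x = a + b + c := by rw [hc]; ring
  have hy : y = a * b + b * c + c * a := by
    rw [hx] at hb
    linear_combination hb
  have habc : a * b * c = 1 := by
    rw [hx, hy] at ha
    linear_combination ha
  have hdisc : ((a - b) * (b - c) * (c - a)) ^ 2 = 0 := by
    unfold F at h
    rw [hx, hy] at h
    have key : ((a - b) * (b - c) * (c - a)) ^ 2 =
        ((a + b + c) ^ 2 * (a * b + b * c + c * a) ^ 2 - 4 * (a + b + c) ^ 3 * (a * b * c)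
          - 4 * (a * b + b * c + c * a) ^ 3 + 18 * (a + b + c) * (a * b + b * c + c * a) *
            (a * b * c) - 27 * (a * b * c) ^ 2) := by ring
    rw [key, habc]
    linear_combination h
  -- a double root determines the point
  have fin : ∀ p q : ℂ, p * p * q = 1 → x = p + p + q → y = p * p + p * q + q * p →
      ∃ z : ℂ, z ≠ 0 ∧ u z = x ∧ v z = y := by
    intro p q hpq hxp hyp
    have hp : p ≠ 0 := by
      rintro rfl
      simp at hpq
    have hq : q = (p⁻¹) ^ 2 := by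
      field_simp
      linear_combination hpq
    refine ⟨p, hp, ?_, ?_⟩
    · rw [hxp, hq]; unfold u; ring
    · rw [hyp, hq]; unfold v; field_simp; ring
  have h3 : (a - b) * (b - c) * (c - a) = 0 := by
    exact pow_eq_zero_iff (two_ne_zero) |>.mp hdisc
  rcases mul_eq_zero.mp h3 with h4 | h4
  · rcases mul_eq_zero.mp h4 with h5 | h5
    · have e : a = b := by linear_combination h5
      apply fin a c
      · rw [← habc, e]
      · rw [hx, e]
      · rw [hy, e]
    · have e : b = c := by linear_combination h5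
      apply fin b a
      · rw [← habc, e]; ring
      · rw [hx, e]; ring
      · rw [hy, e]; ring
  · have e : c = a := by linear_combination h4
    apply fin a b
    · rw [← habc, e]; ring
    · rw [hx, e]; ring
    · rw [hy, e]; ring

lemma inj {z w : ℂ} (hz : z ≠ 0) (hw : w ≠ 0) (h1 : u z = u w) (h2 : v z = v w) : z = w := by
  by_contra hne
  have hzw : z - w ≠ 0 := sub_ne_zero.mpr hne
  unfold u v at *
  have e1 : 2 * (z * w) ^ 2 = z + w := by
    have : (z - w) * (2 * (z * w) ^ 2 - (z + w)) = 0 := by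
      field_simp at h1
      linear_combination h1
    rcases mul_eq_zero.mp this with h | h
    · exact absurd h hzw
    · linear_combination h
  have e2 : (z + w) * (z * w) = 2 := by
    have : (z - w) * ((z + w) * (z * w) - 2) = 0 := by
      field_simp at h2
      linear_combination h2
    rcases mul_eq_zero.mp this with h | h
    · exact absurd h hzw
    · linear_combination h
  have e3 : (z * w) ^ 3 = 1 := by linear_combination e2 / 2 + (z * w) / 2 * e1
  have e4 : (z - w) ^ 2 = 0 := by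
    have : (z - w) ^ 2 = (z + w) ^ 2 - 4 * (z * w) := by ring
    rw [this, ← e1]
    linear_combination 4 * (z * w) * e3
  exact hzw (pow_eq_zero_iff (two_ne_zero) |>.mp e4)

lemma norm_bounds {z : ℂ} (hz : z ≠ 0) {R : ℝ} (hu : ‖u z‖ ≤ R) (hv : ‖v z‖ ≤ R) :
    ‖z‖ ^ 2 ≤ R + 2 ∧ ‖z⁻¹‖ ^ 2 ≤ R + 2 := by
  have hR : 0 ≤ R := (norm_nonneg _).trans hu
  have hzp : 0 < ‖z‖ := norm_pos_iff.mpr hz
  have hip : 0 < ‖z⁻¹‖ := norm_pos_iff.mpr (inv_ne_zero hz)
  have hmul : ‖z‖ * ‖z⁻¹‖ = 1 := by rw [← norm_mul, mul_inv_cancel₀ hz, norm_one]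
  have h1 : ‖z⁻¹‖ ^ 2 ≤ ‖u z‖ + 2 * ‖z‖ := by
    have e : (z⁻¹) ^ 2 = u z - 2 * z := by unfold u; ring
    calc ‖z⁻¹‖ ^ 2 = ‖u z - 2 * z‖ := by rw [← e, norm_pow]
      _ ≤ ‖u z‖ + ‖2 * z‖ := norm_sub_le _ _
      _ = ‖u z‖ + 2 * ‖z‖ := by rw [norm_mul]; norm_num
  have h2 : ‖z‖ ^ 2 ≤ ‖v z‖ + 2 * ‖z⁻¹‖ := by
    have e : z ^ 2 = v z - 2 * z⁻¹ := by unfold v; ring
    calc ‖z‖ ^ 2 = ‖v z - 2 * z⁻¹‖ := by rw [← e, norm_pow]
      _ ≤ ‖v z‖ + ‖2 * z⁻¹‖ := norm_sub_le _ _
      _ = ‖v z‖ + 2 * ‖z⁻¹‖ := by rw [norm_mul]; norm_num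
  rcases le_total ‖z‖ 1 with h | h
  · have h3 : 1 ≤ ‖z⁻¹‖ := by nlinarith
    constructor
    · nlinarith
    · nlinarith
  · have h3 : ‖z⁻¹‖ ≤ 1 := by nlinarith
    constructor
    · nlinarith
    · nlinarith

/-- punctured plane -/
abbrev CS := {z : ℂ // z ≠ 0}

/-- parametrisation -/
def phi (z : CS) : Fin 2 → ℂ := ![u z.1, v z.1]

lemma continuous_phi : Continuous phi := by
  apply continuous_pi
  intro i
  fin_cases i
  · change Continuous (fun z : CS => 2 * z.1 + (z.1⁻¹) ^ 2)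
    have : Continuous (fun z : CS => z.1⁻¹) := continuous_subtype_val.inv₀ (fun z => z.2)
    fun_prop
  · change Continuous (fun z : CS => z.1 ^ 2 + 2 * z.1⁻¹)
    have : Continuous (fun z : CS => z.1⁻¹) := continuous_subtype_val.inv₀ (fun z => z.2)
    fun_prop

lemma phi_inj : Function.Injective phi := by
  intro z w h
  apply Subtype.ext
  exact inj z.2 w.2 (congrFun h 0) (congrFun h 1)

lemma isProper_phi : IsProperMap phi := by
  rw [isProperMap_iff_isCompact_preimage]
  refine ⟨continuous_phi, fun K hK => ?_⟩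
  obtain ⟨R, hR⟩ := hK.isBounded.exists_norm_le
  rw [Subtype.isCompact_iff]
  set R' := max R 0 with hR'
  have hR'0 : 0 ≤ R' := le_max_right _ _
  set r := (Real.sqrt (R' + 2))⁻¹ with hr
  have hs : 0 < Real.sqrt (R' + 2) := Real.sqrt_pos.mpr (by linarith)
  have hrpos : 0 < r := inv_pos.mpr hs
  have hK' : Subtype.val '' (phi ⁻¹' K) =
      (closedBall (0 : ℂ) (Real.sqrt (R' + 2)) ∩ {z | r ≤ ‖z‖}) ∩
        (fun z => (![u z, v z] : Fin 2 → ℂ)) ⁻¹' K := by
    ext z
    constructor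
    · rintro ⟨z, hz, rfl⟩
      have hz' : phi z ∈ K := hz
      have hb := hR _ hz'
      have h0 : ‖u z.1‖ ≤ R' := ((norm_le_pi_norm (phi z) 0).trans hb).trans (le_max_left _ _)
      have h1 : ‖v z.1‖ ≤ R' := ((norm_le_pi_norm (phi z) 1).trans hb).trans (le_max_left _ _)
      obtain ⟨h2, h3⟩ := norm_bounds z.2 h0 h1
      refine ⟨⟨?_, ?_⟩, hz'⟩
      · rw [mem_closedBall_zero_iff]
        exact Real.le_sqrt_of_sq_le h2
      · have h4 : ‖z.1⁻¹‖ ≤ Real.sqrt (R' + 2) := Real.le_sqrt_of_sq_le h3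
        rw [norm_inv] at h4
        change (Real.sqrt (R' + 2))⁻¹ ≤ ‖z.1‖
        exact inv_le_of_inv_le₀ (norm_pos_iff.mpr z.2) h4
    · rintro ⟨⟨hz1, hz2⟩, hz3⟩
      have hz0 : z ≠ 0 := by
        rintro rfl
        have : r ≤ ‖(0 : ℂ)‖ := hz2
        rw [norm_zero] at this
        linarith
      exact ⟨⟨z, hz0⟩, hz3, rfl⟩
  rw [hK']
  have hcl : IsClosed {z : ℂ | r ≤ ‖z‖} := isClosed_le continuous_const continuous_norm
  have hC : IsClosed (closedBall (0 : ℂ) (Real.sqrt (R' + 2)) ∩ {z | r ≤ ‖z‖}) :=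
    Metric.isClosed_closedBall.inter hcl
  have hcont : ContinuousOn (fun z => (![u z, v z] : Fin 2 → ℂ))
      (closedBall (0 : ℂ) (Real.sqrt (R' + 2)) ∩ {z | r ≤ ‖z‖}) := by
    have hne : ∀ z ∈ (closedBall (0 : ℂ) (Real.sqrt (R' + 2)) ∩ {z | r ≤ ‖z‖}), z ≠ 0 := by
      rintro z ⟨-, hz⟩ rfl
      have : r ≤ ‖(0 : ℂ)‖ := hz
      rw [norm_zero] at this
      linarith
    have hinv : ContinuousOn (fun z : ℂ => z⁻¹)
      (closedBall (0 : ℂ) (Real.sqrt (R' + 2)) ∩ {z | r ≤ ‖z‖}) := continuousOn_id.inv₀ hne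
    apply continuousOn_pi.mpr
    intro i
    fin_cases i
    · change ContinuousOn (fun z : ℂ => 2 * z + (z⁻¹) ^ 2) _
      fun_prop
    · change ContinuousOn (fun z : ℂ => z ^ 2 + 2 * z⁻¹) _
      fun_prop
  have hclosed := hcont.preimage_isClosed_of_isClosed hC hK.isClosed
  apply IsCompact.of_isClosed_subset (isCompact_closedBall (0 : ℂ) (Real.sqrt (R' + 2))) hclosed
  exact fun z hz => hz.1.1

/-- the homeomorphism with the curve -/
def homeo (S : Set (Fin 2 → ℂ)) (hS : ∀ q, q ∈ S ↔ F (q 0) (q 1) = 0) : CS ≃ₜ S :=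
  ((IsClosedEmbedding.of_continuous_injective_isClosedMap
    continuous_phi phi_inj isProper_phi.isClosedMap).isEmbedding.toHomeomorph).trans (Homeomorph.setCongr (by
      ext q
      rw [hS]
      constructor
      · rintro ⟨z, rfl⟩
        exact F_uv z.2
      · intro h
        obtain ⟨z, hz, h1, h2⟩ := surj h
        refine ⟨⟨z, hz⟩, ?_⟩
        ext i
        fin_cases i
        · exact h1
        · exact h2))

end Pool.Agent.X178.Del
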