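import Pool.Agent.X178.Del.Curve

/-! Small punctured neighbourhoods of the cusps are connected. -/

set_option autoImplicit false

open Set Filter Topology Metric

noncomputable section

namespace Pool.Agent.X178.Del

/-- squared distance to the cusp -/
def G (z : ℂ) : ℝ := ‖u z - 3‖ ^ 2 + ‖v z - 3‖ ^ 2

lemma u_sub {z : ℂ} (hz : z ≠ 0) : ‖u z - 3‖ = ‖z - 1‖ ^ 2 * ‖2 * z + 1‖ / ‖z‖ ^ 2 := by
  have : u z - 3 = (z - 1) ^ 2 * (2 * z + 1) / z ^ 2 := by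
    unfold u; field_simp; ring
  rw [this, norm_div, norm_mul, norm_pow, norm_pow]

lemma v_sub {z : ℂ} (hz : z ≠ 0) : ‖v z - 3‖ = ‖z - 1‖ ^ 2 * ‖z + 2‖ / ‖z‖ := by
  have : v z - 3 = (z - 1) ^ 2 * (z + 2) / z := by
    unfold v; field_simp; ring
  rw [this, norm_div, norm_mul, norm_pow]

/-- far points are far -/
lemma near_of_lt {z : ℂ} (hz : z ≠ 0) {δ : ℝ} (hδ : 0 < δ) (hδ1 : δ < 1 / 1000)
    (h : G z < δ ^ 2) : ‖z - 1‖ < 1 / 10 := by
  have hzp : 0 < ‖z‖ := norm_pos_iff.mpr hz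
  unfold G at h
  have hN1 : ‖u z - 3‖ < 1 / 1000 := by
    have : ‖u z - 3‖ ^ 2 < δ ^ 2 := by nlinarith [sq_nonneg ‖v z - 3‖]
    exact (lt_of_pow_lt_pow_left₀ 2 hδ.le this).trans hδ1
  have hN2 : ‖v z - 3‖ < 1 / 1000 := by
    have : ‖v z - 3‖ ^ 2 < δ ^ 2 := by nlinarith [sq_nonneg ‖u z - 3‖]
    exact (lt_of_pow_lt_pow_left₀ 2 hδ.le this).trans hδ1
  rw [u_sub hz, div_lt_iff₀ (by positivity)] at hN1
  rw [v_sub hz, div_lt_iff₀ hzp] at hN2
  by_contra hcon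
  push Not at hcon
  set a := ‖z‖ with ha
  set b := ‖z - 1‖ with hb
  set c := ‖z + 2‖ with hc
  set d := ‖2 * z + 1‖ with hd
  have hb0 : 0 ≤ b := norm_nonneg _
  have hc0 : 0 ≤ c := norm_nonneg _
  have hd0 : 0 ≤ d := norm_nonneg _
  -- triangle inequalities
  have t1 : a - 1 ≤ b := by
    have := norm_sub_norm_le z 1
    rw [norm_one] at this
    exact this
  have t2 : a - 2 ≤ c := by
    have := norm_sub_norm_le z (-2)
    rw [norm_neg, sub_neg_eq_add] at this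
    simpa using this
  have t3 : 3 - c ≤ b := by
    have := norm_sub_norm_le (3 : ℂ) (z + 2)
    have e : (3 : ℂ) - (z + 2) = -(z - 1) := by ring
    rw [e, norm_neg] at this
    simpa using this
  have t4 : 3 - 2 * c ≤ d := by
    have := norm_sub_norm_le (3 : ℂ) (2 * (z + 2))
    have e : (3 : ℂ) - 2 * (z + 2) = -(2 * z + 1) := by ring
    rw [e, norm_neg, norm_mul] at this
    simpa using this
  have t5 : a ≤ c + 2 := by linarith
  rcases le_total (1 / 2) c with h1 | h1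
  · rcases le_total a 3 with h2 | h2
    · -- b² c < a/1000
      have : (1 / 10) ^ 2 * (1 / 2) ≤ b ^ 2 * c := by
        apply mul_le_mul (pow_le_pow_left₀ (by norm_num) hcon 2) h1 (by norm_num) (by positivity)
      nlinarith
    · have h3 : (a - 1) ^ 2 * (a - 2) ≤ b ^ 2 * c := by
        apply mul_le_mul (pow_le_pow_left₀ (by linarith) t1 2) t2 (by linarith) (by positivity)
      nlinarith [mul_nonneg (sub_nonneg.mpr h2) (sub_nonneg.mpr h2)]
  · have h3 : (5 / 2) ^ 2 * 2 ≤ b ^ 2 * d := by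
      apply mul_le_mul (pow_le_pow_left₀ (by norm_num) (by linarith) 2) (by linarith)
        (by norm_num) (by positivity)
    nlinarith

/-- monotonicity along rays -/
lemma G_mono {w : ℂ} (hw : ‖w‖ ≤ 1 / 10) {t : ℝ} (ht0 : 0 < t) (ht1 : t ≤ 1) :
    G (1 + t * w) ≤ G (1 + w) := by
  set s := 1 - t with hs
  have hs0 : 0 ≤ s := by linarith
  have hs1 : s < 1 := by linarith
  set z := 1 + w with hz
  set zt := 1 + (t : ℂ) * w with hzt
  have htw : ‖(t : ℂ) * w‖ ≤ 1 / 10 := by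
    rw [norm_mul, Complex.norm_real, Real.norm_eq_abs, abs_of_pos ht0]
    nlinarith [norm_nonneg w]
  have hsw : ‖(s : ℂ) * w‖ ≤ s / 10 := by
    rw [norm_mul, Complex.norm_real, Real.norm_eq_abs, abs_of_nonneg hs0]
    nlinarith [norm_nonneg w]
  have hst : (s : ℂ) = 1 - t := by rw [hs]; push_cast; ring
  have low : ∀ (c x : ℂ), ‖c‖ - ‖x‖ ≤ ‖c + x‖ := by
    intro c x
    have := norm_sub_norm_le c (-x)
    rwa [norm_neg, sub_neg_eq_add] at this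
  have bz : 9 / 10 ≤ ‖z‖ := by
    have := low 1 w
    rw [norm_one] at this
    linarith
  have bzt : 9 / 10 ≤ ‖zt‖ := by
    have := low 1 (t * w)
    rw [norm_one] at this
    linarith
  have b1 : 28 / 10 ≤ ‖2 * z + 1‖ := by
    have := low 3 (2 * w)
    have e : (3 : ℂ) + 2 * w = 2 * z + 1 := by rw [hz]; ring
    rw [e, norm_mul] at this
    have e3 : ‖(3 : ℂ)‖ = 3 := by simp
    have e2 : ‖(2 : ℂ)‖ = 2 := by simp
    rw [e3, e2] at this
    linarith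
  have b2 : 29 / 10 ≤ ‖z + 2‖ := by
    have := low 3 w
    have e : (3 : ℂ) + w = z + 2 := by rw [hz]; ring
    rw [e] at this
    have e3 : ‖(3 : ℂ)‖ = 3 := by simp
    rw [e3] at this
    linarith
  have hz0 : z ≠ 0 := by
    intro h; rw [h, norm_zero] at bz; linarith
  have hzt0 : zt ≠ 0 := by
    intro h; rw [h, norm_zero] at bzt; linarith
  have r1 : ‖z‖ ≤ ‖zt‖ * (1 + s / 9) := by
    have e : z = zt + s * w := by rw [hz, hzt, hst]; ring
    have := norm_add_le zt (s * w)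
    rw [← e] at this
    nlinarith
  have r2 : ‖2 * zt + 1‖ ≤ ‖2 * z + 1‖ * (1 + s / 9) := by
    have e : 2 * zt + 1 = (2 * z + 1) - 2 * (s * w) := by rw [hz, hzt, hst]; ring
    have := norm_sub_le (2 * z + 1) (2 * (s * w))
    rw [← e, norm_mul (2 : ℂ)] at this
    have e2 : ‖(2 : ℂ)‖ = 2 := by simp
    rw [e2] at this
    nlinarith
  have r3 : ‖zt + 2‖ ≤ ‖z + 2‖ * (1 + s / 9) := by
    have e : zt + 2 = (z + 2) - s * w := by rw [hz, hzt, hst]; ring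
    have := norm_sub_le (z + 2) (s * w)
    rw [← e] at this
    nlinarith
  have hzm : ‖z - 1‖ = ‖w‖ := by rw [hz]; congr 1; ring
  have hztm : ‖zt - 1‖ = t * ‖w‖ := by
    have : zt - 1 = t * w := by rw [hzt]; ring
    rw [this, norm_mul, Complex.norm_real, Real.norm_eq_abs, abs_of_pos ht0]
  have hp1 : t ^ 2 * (1 + s / 9) ^ 3 ≤ 1 := by
    have e : t = 1 - s := by rw [hs]; ring
    have h1 : (1 - s) * (1 + s / 9) ^ 3 ≤ 1 := by
      nlinarith [mul_nonneg hs0 hs0, mul_nonneg hs0 (mul_nonneg hs0 hs0),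
        mul_nonneg hs0 (sub_nonneg.mpr hs1.le)]
    rw [e]
    have h2 : 0 ≤ (1 - s) := by linarith
    calc (1 - s) ^ 2 * (1 + s / 9) ^ 3 = (1 - s) * ((1 - s) * (1 + s / 9) ^ 3) := by ring
      _ ≤ (1 - s) * 1 := mul_le_mul_of_nonneg_left h1 h2
      _ ≤ 1 := by linarith
  have hp2 : t ^ 2 * (1 + s / 9) ^ 2 ≤ 1 := by
    refine le_trans ?_ hp1
    apply mul_le_mul_of_nonneg_left _ (sq_nonneg t)
    apply pow_le_pow_right₀ (by linarith) (by norm_num)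
  have hA : ‖u zt - 3‖ ≤ ‖u z - 3‖ := by
    rw [u_sub hz0, u_sub hzt0, hzm, hztm, div_le_div_iff₀ (by positivity) (by positivity)]
    have q1 : ‖z‖ ^ 2 ≤ ‖zt‖ ^ 2 * (1 + s / 9) ^ 2 := by
      rw [← mul_pow]; exact pow_le_pow_left₀ (norm_nonneg _) r1 2
    have q2 : ‖2 * zt + 1‖ * ‖z‖ ^ 2 ≤
        (‖2 * z + 1‖ * (1 + s / 9)) * (‖zt‖ ^ 2 * (1 + s / 9) ^ 2) :=
      mul_le_mul r2 q1 (by positivity) (by positivity)
    calc (t * ‖w‖) ^ 2 * ‖2 * zt + 1‖ * ‖z‖ ^ 2 = (t * ‖w‖) ^ 2 * (‖2 * zt + 1‖ * ‖z‖ ^ 2) := by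
          ring
      _ ≤ (t * ‖w‖) ^ 2 * ((‖2 * z + 1‖ * (1 + s / 9)) * (‖zt‖ ^ 2 * (1 + s / 9) ^ 2)) :=
          mul_le_mul_of_nonneg_left q2 (by positivity)
      _ = (t ^ 2 * (1 + s / 9) ^ 3) * (‖w‖ ^ 2 * ‖2 * z + 1‖ * ‖zt‖ ^ 2) := by ring
      _ ≤ 1 * (‖w‖ ^ 2 * ‖2 * z + 1‖ * ‖zt‖ ^ 2) :=
          mul_le_mul_of_nonneg_right hp1 (by positivity)
      _ = ‖w‖ ^ 2 * ‖2 * z + 1‖ * ‖zt‖ ^ 2 := by ring
  have hB : ‖v zt - 3‖ ≤ ‖v z - 3‖ := by
    rw [v_sub hz0, v_sub hzt0, hzm, hztm, div_le_div_iff₀ (by positivity) (by positivity)]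
    have q2 : ‖zt + 2‖ * ‖z‖ ≤ (‖z + 2‖ * (1 + s / 9)) * (‖zt‖ * (1 + s / 9)) :=
      mul_le_mul r3 r1 (by positivity) (by positivity)
    calc (t * ‖w‖) ^ 2 * ‖zt + 2‖ * ‖z‖ = (t * ‖w‖) ^ 2 * (‖zt + 2‖ * ‖z‖) := by ring
      _ ≤ (t * ‖w‖) ^ 2 * ((‖z + 2‖ * (1 + s / 9)) * (‖zt‖ * (1 + s / 9))) :=
          mul_le_mul_of_nonneg_left q2 (by positivity)
      _ = (t ^ 2 * (1 + s / 9) ^ 2) * (‖w‖ ^ 2 * ‖z + 2‖ * ‖zt‖) := by ring
      _ ≤ 1 * (‖w‖ ^ 2 * ‖z + 2‖ * ‖zt‖) :=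
          mul_le_mul_of_nonneg_right hp2 (by positivity)
      _ = ‖w‖ ^ 2 * ‖z + 2‖ * ‖zt‖ := by ring
  unfold G
  exact add_le_add (pow_le_pow_left₀ (norm_nonneg _) hA 2) (pow_le_pow_left₀ (norm_nonneg _) hB 2)

/-- upper bound near the cusp -/
lemma G_le {w : ℂ} (hw : ‖w‖ ≤ 1 / 10) : G (1 + w) ≤ 32 * ‖w‖ ^ 4 := by
  set z := 1 + w with hz
  have bz : 9 / 10 ≤ ‖z‖ := by
    have := norm_sub_norm_le 1 (-w)
    rw [norm_neg, norm_one, sub_neg_eq_add] at this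
    linarith
  have hz0 : z ≠ 0 := by
    intro h; rw [h, norm_zero] at bz; linarith
  have e3 : ‖(3 : ℂ)‖ = 3 := by simp
  have e2 : ‖(2 : ℂ)‖ = 2 := by simp
  have b1 : ‖2 * z + 1‖ ≤ 32 / 10 := by
    have := norm_add_le 3 (2 * w)
    have e : (3 : ℂ) + 2 * w = 2 * z + 1 := by rw [hz]; ring
    rw [e, norm_mul, e3, e2] at this
    linarith
  have b2 : ‖z + 2‖ ≤ 31 / 10 := by
    have := norm_add_le 3 w
    have e : (3 : ℂ) + w = z + 2 := by rw [hz]; ring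
    rw [e, e3] at this
    linarith
  have hzm : ‖z - 1‖ = ‖w‖ := by rw [hz]; congr 1; ring
  have h1 : ‖u z - 3‖ ≤ 4 * ‖w‖ ^ 2 := by
    rw [u_sub hz0, hzm, div_le_iff₀ (by positivity)]
    have : (9 / 10) ^ 2 ≤ ‖z‖ ^ 2 := pow_le_pow_left₀ (by norm_num) bz 2
    calc ‖w‖ ^ 2 * ‖2 * z + 1‖ ≤ ‖w‖ ^ 2 * (32 / 10) := mul_le_mul_of_nonneg_left b1 (by positivity)
      _ ≤ 4 * ‖w‖ ^ 2 * (9 / 10) ^ 2 := by nlinarith [sq_nonneg ‖w‖]
      _ ≤ 4 * ‖w‖ ^ 2 * ‖z‖ ^ 2 := mul_le_mul_of_nonneg_left this (by positivity)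
  have h2 : ‖v z - 3‖ ≤ 4 * ‖w‖ ^ 2 := by
    rw [v_sub hz0, hzm, div_le_iff₀ (by positivity)]
    calc ‖w‖ ^ 2 * ‖z + 2‖ ≤ ‖w‖ ^ 2 * (31 / 10) := mul_le_mul_of_nonneg_left b2 (by positivity)
      _ ≤ 4 * ‖w‖ ^ 2 * (9 / 10) := by nlinarith [sq_nonneg ‖w‖]
      _ ≤ 4 * ‖w‖ ^ 2 * ‖z‖ := mul_le_mul_of_nonneg_left bz (by positivity)
  unfold G
  have h3 := pow_le_pow_left₀ (norm_nonneg _) h1 2
  have h4 := pow_le_pow_left₀ (norm_nonneg _) h2 2
  nlinarith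

/-- the punctured neighbourhood in the parameter -/
def W (δ : ℝ) : Set ℂ := {z | z ≠ 0 ∧ z ≠ 1 ∧ G z < δ ^ 2}

lemma isPreconnected_W {δ : ℝ} (hδ : 0 < δ) (hδ1 : δ < 1 / 1000) : IsPreconnected (W δ) := by
  have hsub : ∀ w : ℂ, w ≠ 0 → ‖w‖ ≤ δ → 1 + w ∈ W δ := by
    intro w hw hwδ
    refine ⟨?_, ?_, ?_⟩
    · intro h
      have : w = -1 := by linear_combination h
      rw [this, norm_neg, norm_one] at hwδ
      linarith
    · intro h
      exact hw (by linear_combination h)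
    · have h1 := G_le (w := w) (by linarith)
      have h2 : ‖w‖ ^ 4 ≤ δ ^ 4 := pow_le_pow_left₀ (norm_nonneg _) hwδ 4
      have h3 : 32 * δ ^ 4 < δ ^ 2 := by
        have : δ ^ 4 = δ ^ 2 * δ ^ 2 := by ring
        rw [this]
        have h4 : δ ^ 2 < (1 / 1000) ^ 2 := pow_lt_pow_left₀ hδ1 hδ.le two_ne_zero
        nlinarith [sq_nonneg δ, pow_pos hδ 2]
      linarith
  have hray : ∀ w : ℂ, w ≠ 0 → 1 + w ∈ W δ → ∀ t : ℝ, 0 < t → t ≤ 1 → 1 + (t : ℂ) * w ∈ W δ := by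
    intro w hw hwW t ht0 ht1
    have h10 : ‖w‖ < 1 / 10 := by
      have := near_of_lt hwW.1 hδ hδ1 hwW.2.2
      have e : (1 + w) - 1 = w := by ring
      rwa [e] at this
    refine ⟨?_, ?_, ?_⟩
    · intro h
      have e : (t : ℂ) * w = -1 := by linear_combination h
      have : ‖(t : ℂ) * w‖ = 1 := by rw [e, norm_neg, norm_one]
      rw [norm_mul, Complex.norm_real, Real.norm_eq_abs, abs_of_pos ht0] at this
      nlinarith [norm_nonneg w]
    · intro h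
      have e : (t : ℂ) * w = 0 := by linear_combination h
      rcases mul_eq_zero.mp e with h1 | h1
      · exact ht0.ne' (by exact_mod_cast h1)
      · exact hw h1
    · exact lt_of_le_of_lt (G_mono h10.le ht0 ht1) hwW.2.2
  have hsph : IsPreconnected (sphere (1 : ℂ) δ) := by
    apply isPreconnected_sphere
    rw [Complex.rank_real_complex]
    norm_num
  have hsphW : sphere (1 : ℂ) δ ⊆ W δ := by
    intro z hz
    rw [mem_sphere, dist_eq_norm] at hz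
    have e : z = 1 + (z - 1) := by ring
    rw [e]
    apply hsub
    · intro h; rw [h, norm_zero] at hz; linarith
    · exact hz.le
  have hbase : (1 : ℂ) + (δ : ℂ) ∈ sphere (1 : ℂ) δ := by
    rw [mem_sphere, dist_eq_norm, add_sub_cancel_left, Complex.norm_real, Real.norm_eq_abs,
      abs_of_pos hδ]
  apply isPreconnected_of_forall ((1 : ℂ) + (δ : ℂ))
  intro z hz
  set w := z - 1 with hw
  have hzw : z = 1 + w := by rw [hw]; ring
  have hw0 : w ≠ 0 := by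
    intro h
    exact hz.2.1 (by rw [hzw, h, add_zero])
  have hwp : 0 < ‖w‖ := norm_pos_iff.mpr hw0
  -- the segment in the parameter `t`
  set I := uIcc (1 : ℝ) (δ / ‖w‖) with hI
  have himg : IsPreconnected ((fun t : ℝ => 1 + (t : ℂ) * w) '' I) := by
    apply isPreconnected_uIcc.image
    fun_prop
  refine ⟨sphere 1 δ ∪ (fun t : ℝ => 1 + (t : ℂ) * w) '' I, ?_, Or.inl hbase, ?_, ?_⟩
  · apply union_subset hsphW
    rintro _ ⟨t, ht, rfl⟩
    rcases le_total 1 (δ / ‖w‖) with h | h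
    · rw [hI, uIcc_of_le h] at ht
      apply hsub
      · apply mul_ne_zero _ hw0
        exact_mod_cast (by linarith [ht.1] : (0 : ℝ) < t).ne'
      · rw [norm_mul, Complex.norm_real, Real.norm_eq_abs, abs_of_pos (by linarith [ht.1])]
        exact (le_div_iff₀ hwp).mp ht.2
    · rw [hI, uIcc_of_ge h] at ht
      apply hray w hw0 (by rwa [← hzw]) t _ ht.2
      exact lt_of_lt_of_le (by positivity) ht.1
  · right
    refine ⟨1, left_mem_uIcc, ?_⟩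
    change 1 + ((1 : ℝ) : ℂ) * w = z
    rw [hzw]; push_cast; ring
  · apply hsph.union (1 + ((δ / ‖w‖ : ℝ) : ℂ) * w) _ _ himg
    · rw [mem_sphere, dist_eq_norm, add_sub_cancel_left, norm_mul, Complex.norm_real,
        Real.norm_eq_abs, abs_of_pos (by positivity)]
      field_simp
    · exact ⟨δ / ‖w‖, right_mem_uIcc, rfl⟩

end Pool.Agent.X178.Del
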